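import Pool.Agent.H46.VIO.Stmts

/-!
# VIO, module PAT: classes of triples by the exponents of the known primes
-/

set_option autoImplicit false

namespace Pool.VIO

open Finset Pool.Agent.H98.ABCR Pool.SHA Pool.ABY

private theorem pat_kl_le (K : Finset ℕ) (n : ℕ) :
    ∑ q ∈ K, (n.factorization q : ℝ) * Real.log q ≤ Real.log n := by
  classical
  rw [Real.log_nat_eq_sum_factorization, Finsupp.sum]
  have h1 : ∑ q ∈ K, (n.factorization q : ℝ) * Real.log q =
      ∑ q ∈ K.filter (fun q => q ∈ n.factorization.support),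
        (n.factorization q : ℝ) * Real.log q := by
    symm
    apply Finset.sum_filter_of_ne
    intro q _ hne
    rw [Finsupp.mem_support_iff]
    intro h0
    apply hne
    rw [h0]
    simp
  rw [h1]
  apply Finset.sum_le_sum_of_subset_of_nonneg
  · intro q hq
    exact (Finset.mem_filter.1 hq).2
  · intro q _ _
    exact mul_nonneg (Nat.cast_nonneg _) (Real.log_natCast_nonneg q)

private theorem pat_coord_le {v : ℕ × ℕ} (hv : IsTri v) (s : Fin 3) :
    Real.log (coord v s) ≤ hh v := by
  obtain ⟨h1, h2, _⟩ := hv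
  unfold hh
  have h3 : 0 < coord v s ∧ coord v s ≤ v.1 + v.2 := by
    fin_cases s <;> simp [coord] <;> omega
  apply Real.log_le_log (by exact_mod_cast h3.1)
  exact_mod_cast h3.2

theorem pat_thm (hG : S_GCO) : S_PAT := by
  classical
  intro δ hδ
  refine ⟨(2 : ℝ) ^ (6 / δ + 3), Real.one_le_rpow (by norm_num) (by positivity), ?_⟩
  intro K h0 hK hh0
  have hc : (0 : ℝ) < K.card + 1 := by positivity
  set Δ : ℝ := δ * h0 / (K.card + 1) with hΔ
  have hΔ0 : 0 < Δ := by positivity
  set Q : ℕ := ⌊6 * ((K.card : ℝ) + 1) / δ⌋₊ with hQ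
  set G : Finset (Fin 3 × ↥K → ℕ) :=
    (Fintype.piFinset fun _ : Fin 3 × ↥K => range (Q + 1)).filter (fun g => ∑ i, g i ≤ Q) with hGd
  have hGc : G.card ≤ 2 ^ (Q + Fintype.card (Fin 3 × ↥K)) :=
    hG (Fin 3 × ↥K) Q G (fun g hg => (mem_filter.1 hg).2)
  rw [Fintype.card_prod, Fintype.card_fin, Fintype.card_coe] at hGc
  have hlog : ∀ t ∈ K, 0 < Real.log t := fun t ht =>
    Real.log_pos (by exact_mod_cast (hK t ht).one_lt)
  let vec : ℕ × ℕ → (Fin 3 × ↥K → ℕ) := fun v i =>
    ⌊((coord v i.1).factorization (i.2 : ℕ) : ℝ) * Real.log (i.2 : ℕ) / Δ⌋₊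
  have hvec : ∀ v, IsTri v → hh v ≤ 2 * h0 → vec v ∈ G := by
    intro v hv hhv
    have hsum : ∑ i, vec v i ≤ Q := by
      rw [hQ, Nat.le_floor_iff (by positivity)]
      push_cast
      calc ∑ i, (vec v i : ℝ)
          ≤ ∑ i : Fin 3 × ↥K, ((coord v i.1).factorization (i.2 : ℕ) : ℝ) *
              Real.log (i.2 : ℕ) / Δ := by
            apply sum_le_sum
            intro i _
            exact Nat.floor_le (div_nonneg (mul_nonneg (Nat.cast_nonneg _)
              (hlog _ i.2.2).le) hΔ0.le)
        _ = ∑ s : Fin 3, ∑ q : ↥K, ((coord v s).factorization (q : ℕ) : ℝ) *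
              Real.log (q : ℕ) / Δ := by
            rw [Fintype.sum_prod_type]
        _ ≤ ∑ _s : Fin 3, 2 * h0 / Δ := by
            apply sum_le_sum
            intro s _
            rw [← sum_div]
            have h1 : ∑ q : ↥K, ((coord v s).factorization (q : ℕ) : ℝ) * Real.log (q : ℕ) =
                ∑ q ∈ K, ((coord v s).factorization q : ℝ) * Real.log q :=
              sum_coe_sort K (fun q => ((coord v s).factorization q : ℝ) * Real.log q)
            rw [h1]
            have h2 := (pat_kl_le K (coord v s)).trans ((pat_coord_le hv s).trans hhv)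
            gcongr
        _ = 6 * ((K.card : ℝ) + 1) / δ := by
            rw [sum_const, card_univ, Fintype.card_fin, nsmul_eq_mul, hΔ]
            field_simp
            norm_num
    rw [hGd, mem_filter, Fintype.mem_piFinset]
    refine ⟨fun i => ?_, hsum⟩
    rw [mem_range]
    have := single_le_sum (f := fun i => vec v i) (fun _ _ => Nat.zero_le _) (mem_univ i)
    have h2 : vec v i ≤ Q := this.trans hsum
    omega
  let cl : ℕ × ℕ → ℕ := fun v => if h : vec v ∈ G then (G.equivFin ⟨vec v, h⟩ : ℕ) else 0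
  have hcl : ∀ v (h : vec v ∈ G), cl v = (G.equivFin ⟨vec v, h⟩ : ℕ) := fun v h => dif_pos h
  refine ⟨G.card, cl, ?_, ?_, ?_⟩
  · have h1 : (G.card : ℝ) ≤ (2 : ℝ) ^ (Q + 3 * K.card) := by exact_mod_cast hGc
    refine h1.trans ?_
    have h2 : ((2 : ℝ) ^ (6 / δ + 3)) ^ (K.card + 1) =
        (2 : ℝ) ^ ((6 / δ + 3) * ((K.card : ℝ) + 1)) := by
      rw [← Real.rpow_natCast, ← Real.rpow_mul (by norm_num)]
      push_cast
      rfl
    rw [h2, ← Real.rpow_natCast]
    refine Real.rpow_le_rpow_of_exponent_le (by norm_num) ?_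
    push_cast
    have h3 : (Q : ℝ) ≤ 6 * ((K.card : ℝ) + 1) / δ := Nat.floor_le (by positivity)
    have h4 : 6 * ((K.card : ℝ) + 1) / δ = 6 / δ * ((K.card : ℝ) + 1) := by ring
    nlinarith
  · intro v hv hhv
    rw [hcl v (hvec v hv hhv)]
    exact (G.equivFin _).2
  · intro v v' hv hv' hhv hhv' he s q hq
    rw [hcl v (hvec v hv hhv), hcl v' (hvec v' hv' hhv')] at he
    have h1 : vec v = vec v' := by
      have h2 := G.equivFin.injective (Fin.ext he)
      exact congrArg Subtype.val h2
    have h3 : ⌊((coord v s).factorization q : ℝ) * Real.log q / Δ⌋₊ =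
        ⌊((coord v' s).factorization q : ℝ) * Real.log q / Δ⌋₊ := congrFun h1 (s, ⟨q, hq⟩)
    have hl := hlog q hq
    have a1 := Nat.floor_le (div_nonneg (mul_nonneg (Nat.cast_nonneg
      ((coord v s).factorization q)) hl.le) hΔ0.le)
    have a2 := Nat.lt_floor_add_one (((coord v s).factorization q : ℝ) * Real.log q / Δ)
    have b1 := Nat.floor_le (div_nonneg (mul_nonneg (Nat.cast_nonneg
      ((coord v' s).factorization q)) hl.le) hΔ0.le)
    have b2 := Nat.lt_floor_add_one (((coord v' s).factorization q : ℝ) * Real.log q / Δ)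
    rw [h3] at a1 a2
    have e1 : |((coord v s).factorization q : ℝ) - (coord v' s).factorization q| * Real.log q ≤
        Δ := by
      rw [show |((coord v s).factorization q : ℝ) - (coord v' s).factorization q| * Real.log q =
        |(((coord v s).factorization q : ℝ) - (coord v' s).factorization q) * Real.log q| by
          rw [abs_mul, abs_of_pos hl], abs_le]
      rw [le_div_iff₀ hΔ0] at a1 b1
      rw [div_lt_iff₀ hΔ0] at a2 b2
      constructor <;> nlinarith
    calc |((coord v s).factorization q : ℝ) - (coord v' s).factorization q| * Real.log q *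
        (K.card + 1) ≤ Δ * (K.card + 1) := by gcongr
      _ = δ * h0 := by rw [hΔ]; field_simp

end Pool.VIO
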